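import Pool.Agent.K7.H57.SP.Rel

/-! From multisets to general points. -/

set_option autoImplicit false

namespace Pool.Agent.K7.H57.SP

open Finset Pool.Agent.TH176.Nag Pool.Agent.TH603.Sur Pool.Agent.TH641.UM Pool.Agent.TH2.NU
  Pool.Agent.TH545.SD Pool.Agent.H932R3

theorem ms_append {a s : ℕ} (u : Fin a → ℕ) (x : Fin s → ℕ) :
    ms (Fin.append u x) = ms u + ms x := by
  unfold ms
  rw [Fin.sum_univ_add]
  simp only [Fin.append_left, Fin.append_right]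

theorem co_ms {n : ℕ} (w : Fin n → ℕ) : co (ms w) = ∑ i, (w i + 1).choose 2 :=
  (cond_ms w).symm

/-- general points, every degree -/
theorem open_of_ends {n D : ℕ} {w : Fin n → ℕ} {X : Multiset ℕ} (hw : ms w = X)
    (h1 : (D + 2).choose 2 ≤ co X) (h2 : co X < (D + 1 + 2).choose 2) (g1 : GD D X)
    (g2 : GD (D + 1) X) :
    ∃ F : MvPolynomial (Fin n × Fin 2) ℂ, F ≠ 0 ∧ ∀ P : Fin n → Fin 2 → ℂ,
      MvPolynomial.eval (fun ij : Fin n × Fin 2 => P ij.1 ij.2) F ≠ 0 →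
      ∀ d, ExpDim ℂ w P d := by
  have hE : Emp w (TZ D) := (EmpM_iff hw _).1 (ofE g1 h1)
  have hS : Sur w (TZ (D + 1)) := (SurM_iff hw _).1 (ofS g2 h2.le)
  obtain ⟨F1, hF1, hF1'⟩ := full_open hE
  obtain ⟨F2, hF2, hF2'⟩ := indep_open hS
  refine ⟨(F1 * F2).map (algebraMap ℚ ℂ), map_ne_zero_of (mul_ne_zero hF1 hF2),
    fun P hP d => ?_⟩
  rw [MvPolynomial.eval_map] at hP
  have hP' : MvPolynomial.aeval (fun ij : Fin n × Fin 2 => P ij.1 ij.2) (F1 * F2) ≠ 0 := hP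
  rw [map_mul] at hP'
  rcases Nat.lt_or_ge D d with h | h
  · exact hF2' (L := ℂ) P (right_ne_zero_of_mul hP') d h
  · exact hF1' (L := ℂ) P (left_ne_zero_of_mul hP') d h

/-- the largest degree `D` with at least as many conditions as forms -/
theorem critical {q D : ℕ} (h1 : (D + 2).choose 2 ≤ q) {D' : ℕ} (h2 : q < (D' + 1 + 2).choose 2) :
    D ≤ D' := by
  by_contra hc
  push Not at hc
  have : (D' + 1 + 2).choose 2 ≤ (D + 2).choose 2 := Nat.choose_le_choose 2 (by omega)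
  omega

theorem relative_all {W M : Multiset ℕ} {E D v K : ℕ} (hE : 1 ≤ E) (hW : ∀ d, GD d W)
    (hWpos : 1 ≤ co W) (hM : ∀ x ∈ M, 1 ≤ x ∧ x ≤ E) (h1 : (D + 2).choose 2 ≤ co (W + M))
    (h2 : co (W + M) < (D + 1 + 2).choose 2) (hv1 : 1 ≤ v) (hvE : v ≤ E)
    (hK : 4 * K ≤ M.count v) (hKv : (6 * E + 1) * (D + 2) ≤ K * v) :
    GD D (W + M) ∧ GD (D + 1) (W + M) := by
  obtain ⟨D3, a1, a2⟩ := exT hWpos
  have a3 := T_succ D3
  have hD3 : D3 ≤ D := critical (a1.trans (by rw [co_add]; omega)) h2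
  refine relative (e := D3) (f := D3 + 1) (δ := D + 2) hE (ofE (hW _) a1) (ofS (hW _) a2.le)
    (by omega) (by omega) hM h1 h2 hv1 hvE hK ?_
  have : (6 * E + 1) * (D + 2) = 6 * E * (D + 2) + (D + 2) := by ring
  omega

end Pool.Agent.K7.H57.SP
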