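import Pool.Agent.K7.H57.SP.Strip

/-! Many small points are put on strips of the triangle. -/

set_option autoImplicit false

namespace Pool.Agent.K7.H57.SP

open Finset Pool.Agent.TH176.Nag Pool.Agent.TH603.Sur Pool.Agent.TH641.UM Pool.Agent.TH2.NU

theorem two_T (d : ℕ) : 2 * (d + 2).choose 2 = (d + 1) * (d + 2) := by
  rw [Nat.choose_two_right, show d + 2 - 1 = d + 1 by omega, mul_comm (d + 2) (d + 1)]
  exact Nat.mul_div_cancel' (Nat.even_mul_succ_self (d + 1)).two_dvd

theorem two_C (v : ℕ) : 2 * (v + 1).choose 2 = v * (v + 1) := by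
  rw [Nat.choose_two_right, show v + 1 - 1 = v by omega, mul_comm (v + 1) v]
  exact Nat.mul_div_cancel' (Nat.even_mul_succ_self v).two_dvd

theorem T_add (e v : ℕ) : 2 * (e + v + 2).choose 2 =
    2 * (e + 2).choose 2 + 2 * v * (e + 1) + v * (v + 1) := by
  rw [two_T, two_T]
  ring

theorem T_succ (d : ℕ) : (d + 1 + 2).choose 2 = (d + 2).choose 2 + (d + 2) := by
  have h1 := two_T (d + 1)
  have h2 := two_T d
  have h3 : (d + 1 + 1) * (d + 1 + 2) = (d + 1) * (d + 2) + 2 * (d + 2) := by ring
  omega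

theorem C_succ (v : ℕ) : (v + 1 + 1).choose 2 = (v + 1).choose 2 + (v + 1) := by
  have h1 := two_C (v + 1)
  have h2 := two_C v
  have h3 : (v + 1) * (v + 1 + 1) = v * (v + 1) + 2 * (v + 1) := by ring
  omega

theorem T_pos (d : ℕ) : 1 ≤ (d + 2).choose 2 := Nat.choose_pos (by omega)

theorem T_le {d d' : ℕ} (h : (d + 2).choose 2 ≤ (d' + 2).choose 2) : d ≤ d' := by
  by_contra hc
  push Not at hc
  have h1 : (d' + 1 + 2).choose 2 ≤ (d + 2).choose 2 := Nat.choose_le_choose 2 (by omega)
  have h2 := T_succ d'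
  omega

theorem TZ_sub {d d' : ℕ} (h : d ≤ d') : TZ d ⊆ TZ d' := by
  rintro m ⟨h1, h2, h3⟩
  exact ⟨h1, h2, h3.trans (by exact_mod_cast h)⟩

theorem split_count (M : Multiset ℕ) (a : ℕ) :
    M = (M.count a) • {a} + M.filter (fun x => x ≠ a) := by
  conv_lhs => rw [← Multiset.filter_add_not (fun x => x = a) M]
  rw [Multiset.filter_eq', Multiset.nsmul_singleton]

theorem condM_zero {M : Multiset ℕ} (h : ∀ x ∈ M, x ≤ 0) : TH2.NU.condM M = 0 := by
  unfold TH2.NU.condM
  apply Multiset.sum_eq_zero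
  intro y hy
  obtain ⟨x, hx, rfl⟩ := Multiset.mem_map.1 hy
  have : x = 0 := Nat.le_zero.1 (h x hx)
  subst this
  rfl

theorem condM_pc (p v : ℕ) (R : Multiset ℕ) :
    TH2.NU.condM (p • {v} + R) = p * (v + 1).choose 2 + TH2.NU.condM R := by
  rw [condM_add, condM_smul, condM_single]

theorem num1 {d E p cR T1 T C : ℕ} (hp : p < 2 * ((d + 1) / (E + 1 + 1)) + 1)
    (h : T + 2 * (E + 1) * (d + 1) ≤ (p * (C + (E + 1)) + cR) + T1) :
    T + 2 * E * (d + 1) ≤ (p * C + cR) + T1 := by
  have h1 := Nat.div_mul_le_self (d + 1) (E + 1 + 1)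
  have h2 : p ≤ 2 * ((d + 1) / (E + 1 + 1)) := by omega
  have h3 : p * (E + 1) ≤ 2 * (d + 1) := by
    calc p * (E + 1) ≤ (2 * ((d + 1) / (E + 1 + 1))) * (E + 1 + 1) :=
          Nat.mul_le_mul h2 (by omega)
      _ = 2 * (((d + 1) / (E + 1 + 1)) * (E + 1 + 1)) := by ring
      _ ≤ 2 * (d + 1) := Nat.mul_le_mul_left 2 h1
  nlinarith

theorem num2 {e E cR T1 : ℕ}
    (h : (e + E + 2).choose 2 + 2 * E * (e + E + 1) ≤
      ((2 * ((e + E + 1) / (E + 1)) + 1) * (E + 1).choose 2 + cR) + T1) :
    (e + 2).choose 2 + 2 * E * (e + 1) ≤ cR + T1 := by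
  obtain ⟨q, hq⟩ : ∃ q, q = (e + E + 1) / (E + 1) := ⟨_, rfl⟩
  have h1 := Nat.div_mul_le_self (e + E + 1) (E + 1)
  rw [← hq] at h h1
  have h2 := T_add e E
  have h3 := two_C E
  have h4 : 2 * ((2 * q + 1) * (E + 1).choose 2) = 2 * (q * (E + 1)) * E + E * (E + 1) := by
    calc 2 * ((2 * q + 1) * (E + 1).choose 2) = (2 * q + 1) * (2 * (E + 1).choose 2) := by ring
      _ = (2 * q + 1) * (E * (E + 1)) := by rw [h3]
      _ = _ := by ring
  have h5 : 2 * (q * (E + 1)) * E ≤ 2 * (e + E + 1) * E :=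
    Nat.mul_le_mul_right E (Nat.mul_le_mul_left 2 h1)
  nlinarith

theorem lemE (n : ℕ) : ∀ (d E D1 : ℕ) (W M : Multiset ℕ), d + E ≤ n → (∀ x ∈ M, x ≤ E) →
    EmpM W (TZ D1) →
    (d + 2).choose 2 + 2 * E * (d + 1) ≤ TH2.NU.condM M + (D1 + 2).choose 2 → EmpM (W + M) (TZ d) := by
  induction n with
  | zero =>
    intro d E D1 W M hn _ hW _
    exact (hW.mono_set (TZ_sub (by omega))).mono (Multiset.le_add_right W M)
  | succ n ih =>
    intro d E D1 W M hn hM hW h
    rcases le_or_gt d D1 with hd | hd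
    · exact (hW.mono_set (TZ_sub hd)).mono (Multiset.le_add_right W M)
    rcases Nat.eq_zero_or_pos E with hE | hE
    · subst hE
      have h1 := condM_zero hM
      have h2 : (d + 2).choose 2 ≤ (D1 + 2).choose 2 := by omega
      have := T_le h2
      omega
    obtain ⟨E', rfl⟩ : ∃ E', E = E' + 1 := ⟨E - 1, by omega⟩
    obtain ⟨p, hp⟩ : ∃ p, p = M.count (E' + 1) := ⟨_, rfl⟩
    obtain ⟨R, hR⟩ : ∃ R, R = M.filter (fun x => x ≠ E' + 1) := ⟨_, rfl⟩
    have hMs : M = p • {E' + 1} + R := by rw [hp, hR]; exact split_count M (E' + 1)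
    have hRm : ∀ x ∈ R, x ≤ E' := by
      intro x hx
      rw [hR, Multiset.mem_filter] at hx
      have := hM x hx.1
      omega
    rcases lt_or_ge p (2 * ((d + 1) / (E' + 1 + 1)) + 1) with hk | hk
    · have h1 := ih d E' D1 W (p • {E'} + R) (by omega) (by
        intro x hx
        rcases Multiset.mem_add.1 hx with hx | hx
        · have := Multiset.mem_singleton.1 (Multiset.mem_of_mem_nsmul hx)
          omega
        · exact hRm x hx) hW (by
        rw [hMs, condM_pc, C_succ E'] at h
        rw [condM_pc]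
        exact num1 hk h)
      rw [add_left_comm] at h1
      have h2 := EmpM.raise (Nat.le_succ E') h1
      rw [hMs, add_left_comm]
      exact h2
    · obtain ⟨j, hj⟩ := Nat.exists_eq_add_of_le hk
      rcases le_or_gt (E' + 1) d with hEd | hEd
      · obtain ⟨e, he⟩ : ∃ e, d = e + (E' + 1) := ⟨d - (E' + 1), by omega⟩
        have hMk : M = (2 * ((d + 1) / (E' + 1 + 1)) + 1) • {E' + 1} + (j • {E' + 1} + R) := by
          rw [hMs, hj, add_smul, add_assoc]
        have h1 := ih e (E' + 1) D1 W (j • {E' + 1} + R) (by omega) (by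
          intro x hx
          apply hM
          rw [hMk]
          exact Multiset.mem_add.2 (Or.inr hx)) hW (by
          rw [hMk, condM_pc, he] at h
          exact num2 h)
        have h2 := stepE (d := d) (v := E' + 1) (X := W + (j • {E' + 1} + R)) hEd (by
          rw [he, Nat.add_sub_cancel]
          exact h1)
        have e2 : W + M = W + (j • {E' + 1} + R) +
            (2 * ((d + 1) / (E' + 1 + 1)) + 1) • {E' + 1} := by
          conv_lhs => rw [hMk]
          rw [add_assoc W, add_comm (j • {E' + 1} + R)]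
        rw [e2]
        exact h2
      · have h1 : EmpM {E' + 1} (TZ d) := by
          refine (upE 0 (E' + 1)).mono_set ?_
          rintro ⟨x, y⟩ ⟨a1, a2, a3⟩
          simp only at a1 a2 a3
          refine ⟨a1, a2, ?_⟩
          simp only
          push_cast
          omega
        refine h1.mono ?_
        rw [Multiset.singleton_le, Multiset.mem_add]
        right
        rw [hMs, Multiset.mem_add]
        left
        rw [Multiset.nsmul_singleton, Multiset.mem_replicate]
        exact ⟨by omega, rfl⟩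

theorem num3 {e v g cR T2 : ℕ}
    (h : ((2 * ((e + 1) / (v + 1)) + 1) * (v + 1).choose 2 + cR) + T2 +
      (2 * g + (v + g)) * (e + v + 1) ≤ (e + v + 2).choose 2) :
    cR + T2 + (2 * g + (v + g)) * (e + 1) ≤ (e + 2).choose 2 := by
  obtain ⟨q, hq⟩ : ∃ q, q = (e + 1) / (v + 1) := ⟨_, rfl⟩
  have h1 := Nat.lt_div_mul_add (a := e + 1) (b := v + 1) (by omega)
  rw [← hq] at h h1
  have h2 := T_add e v
  have h3 := two_C v
  have h4 : 2 * ((2 * q + 1) * (v + 1).choose 2) = 2 * (q * (v + 1)) * v + v * (v + 1) := by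
    calc 2 * ((2 * q + 1) * (v + 1).choose 2) = (2 * q + 1) * (2 * (v + 1).choose 2) := by ring
      _ = (2 * q + 1) * (v * (v + 1)) := by rw [h3]
      _ = _ := by ring
  have h5 : 2 * (e + 1) * v ≤ 2 * (q * (v + 1)) * v + 2 * v * v := by
    have : e + 1 ≤ q * (v + 1) + v := by omega
    nlinarith
  nlinarith

theorem num4 {d v g p cR T2 T C : ℕ} (hp : p < 2 * ((d + 1 - v) / (v + 1)) + 1)
    (h : (p * C + cR) + T2 + (2 * (g + 1) + (v + (g + 1))) * (d + 1) ≤ T) :
    (p * (C + (v + 1)) + cR) + T2 + (2 * g + (v + 1 + g)) * (d + 1) ≤ T := by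
  have h1 := Nat.div_mul_le_self (d + 1 - v) (v + 1)
  have h3 : p * (v + 1) ≤ 2 * (d + 1) := by
    calc p * (v + 1) ≤ (2 * ((d + 1 - v) / (v + 1))) * (v + 1) :=
          Nat.mul_le_mul_right _ (by omega)
      _ = 2 * (((d + 1 - v) / (v + 1)) * (v + 1)) := by ring
      _ ≤ 2 * (d + 1) := Nat.mul_le_mul_left 2 (by omega)
  nlinarith

theorem lemS (n : ℕ) : ∀ (d v g D2 : ℕ) (W M : Multiset ℕ), g + d ≤ n → 1 ≤ v →
    (∀ x ∈ M, v ≤ x ∧ x ≤ v + g) → SurM W (TZ D2) →
    TH2.NU.condM M + (D2 + 2).choose 2 + (2 * g + (v + g)) * (d + 1) ≤ (d + 2).choose 2 →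
    SurM (W + M) (TZ d) := by
  induction n with
  | zero =>
    intro d v g D2 W M hn hv _ _ h
    exfalso
    have hd : d = 0 := by omega
    subst hd
    have h1 := T_pos D2
    have h2 : (0 + 2).choose 2 = 1 := rfl
    rw [h2] at h
    omega
  | succ n ih =>
    intro d v g D2 W M hn hv hM hW h
    have hT2 := T_pos D2
    have hvd : v ≤ d := by
      by_contra hc
      push Not at hc
      have h1 := two_T d
      have h2 : (d + 1) * (d + 1) ≤ (2 * g + (v + g)) * (d + 1) :=
        Nat.mul_le_mul_right _ (by omega)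
      nlinarith
    obtain ⟨p, hp⟩ : ∃ p, p = M.count v := ⟨_, rfl⟩
    obtain ⟨R, hR⟩ : ∃ R, R = M.filter (fun x => x ≠ v) := ⟨_, rfl⟩
    have hMs : M = p • {v} + R := by rw [hp, hR]; exact split_count M v
    have hRm : ∀ x ∈ R, v + 1 ≤ x ∧ x ≤ v + g := by
      intro x hx
      rw [hR, Multiset.mem_filter] at hx
      have := hM x hx.1
      omega
    obtain ⟨e, he⟩ : ∃ e, d = e + v := ⟨d - v, by omega⟩
    rcases lt_or_ge p (2 * ((d + 1 - v) / (v + 1)) + 1) with hk | hk
    · rcases Nat.eq_zero_or_pos g with hg | hg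
      · subst hg
        have hR0 : R = 0 := by
          rw [Multiset.eq_zero_iff_forall_notMem]
          intro x hx
          have := hRm x hx
          omega
        rw [hR0, add_zero] at hMs
        rw [hMs]
        refine stepS' hvd ?_ (stS_le (by omega) (by omega))
        rw [he, Nat.add_sub_cancel]
        refine SurM.mono_set hW (TZ_sub ?_)
        apply T_le
        have h2 := T_add e v
        rw [he] at h
        have h5 : v * (v + 1) ≤ 2 * (v * v) := by nlinarith
        nlinarith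
      · obtain ⟨g', rfl⟩ : ∃ g', g = g' + 1 := ⟨g - 1, by omega⟩
        have h1 := ih d (v + 1) g' D2 W (p • {v + 1} + R) (by omega) (by omega) (by
          intro x hx
          rcases Multiset.mem_add.1 hx with hx | hx
          · have := Multiset.mem_singleton.1 (Multiset.mem_of_mem_nsmul hx)
            omega
          · have := hRm x hx
            omega) hW (by
          rw [hMs, condM_pc] at h
          rw [condM_pc, C_succ]
          exact num4 hk h)
        rw [add_left_comm] at h1
        have h2 := SurM.lower (Nat.le_succ v) h1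
        rw [hMs, add_left_comm]
        exact h2
    · obtain ⟨j, hj⟩ := Nat.exists_eq_add_of_le hk
      have hMk : M = (2 * ((d + 1 - v) / (v + 1)) + 1) • {v} + (j • {v} + R) := by
        rw [hMs, hj, add_smul, add_assoc]
      have h1 := ih e v g D2 W (j • {v} + R) (by omega) hv (by
        intro x hx
        apply hM
        rw [hMk]
        exact Multiset.mem_add.2 (Or.inr hx)) hW (by
        rw [hMk, condM_pc, he] at h
        have e3 : e + v + 1 - v = e + 1 := by omega
        rw [e3] at h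
        exact num3 h)
      have h2 := stepS' (d := d) (v := v) (X := W + (j • {v} + R)) hvd (by
        rw [he, Nat.add_sub_cancel]
        exact h1) (stS (L := d + 1) (v := v) (by omega))
      have e2 : W + M = W + (j • {v} + R) +
          (2 * ((d + 1 - v) / (v + 1)) + 1) • {v} := by
        conv_lhs => rw [hMk]
        rw [add_assoc W, add_comm (j • {v} + R)]
      rw [e2]
      exact h2

end Pool.Agent.K7.H57.SP
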