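import Pool.Agent.K7.H57.SP.Greedy
import Pool.Agent.TH545.SD.Dg

/-! Four times `N` points of large multiplicity and arbitrarily many points of small multiplicities:
the expected dimension in every degree. -/

set_option autoImplicit false

namespace Pool.Agent.K7.H57.SP

open Finset Pool.Agent.TH176.Nag Pool.Agent.TH603.Sur Pool.Agent.TH641.UM Pool.Agent.TH2.NU
  Pool.Agent.TH545.SD

theorem co_add (A B : Multiset ℕ) : co (A + B) = co A + co B := condM_add A B
theorem co_smul (a : ℕ) (M : Multiset ℕ) : co (a • M) = a * co M := condM_smul a M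
theorem co_single (b : ℕ) : co ({b} : Multiset ℕ) = (b + 1).choose 2 := condM_single b

theorem gdE {v : Multiset ℕ} {D : ℕ} (hc : (D + 2).choose 2 ≤ co v) (h : EmpM v (TZ D)) :
    ∀ d ≤ D, GD d v := by
  intro d hd ι _ w hw
  have e : Pool.Agent.TH603.Sur.cond w = co v := by rw [cond_ms, hw, co]
  have hE' : Emp w (TZ d) := ((EmpM_iff hw _).1 h).mono (TZ_sub hd)
  refine ⟨fun _ => hE', fun hle => ?_⟩
  refine ⟨TF d, (coe_TF d).subset, ?_, by rw [coe_TF]; exact hE'⟩
  have h1 : (d + 2).choose 2 ≤ (D + 2).choose 2 := Nat.choose_le_choose 2 (by omega)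
  rw [card_TF]
  omega

theorem gdS {v : Multiset ℕ} {D : ℕ} (_hc : co v ≤ (D + 2).choose 2) (h : SurM v (TZ D)) :
    ∀ d, D ≤ d → GD d v := by
  intro d hd ι _ w hw
  have e : Pool.Agent.TH603.Sur.cond w = co v := by rw [cond_ms, hw, co]
  have hS' : Sur w (TZ d) := ((SurM_iff hw _).1 h).mono (TZ_sub hd)
  refine ⟨fun hle => ?_, fun _ => hS'⟩
  obtain ⟨T, hT, hTc, hTE⟩ := hS'
  have hTS : T ⊆ TF d := fun u hu => by
    rw [← mem_coe, coe_TF]
    exact hT (mem_coe.2 hu)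
  have : T = TF d := eq_of_subset_of_card_le hTS (by rw [card_TF]; omega)
  rw [this, coe_TF] at hTE
  exact hTE

theorem ofE {v : Multiset ℕ} {d : ℕ} (h : GD d v) (hc : (d + 2).choose 2 ≤ co v) :
    EmpM v (TZ d) := by
  refine (h (fun i : Fin v.toList.length => v.toList.get i) (ms_toList v)).1 ?_
  rw [cond_ms, ms_toList]
  exact hc

theorem ofS {v : Multiset ℕ} {d : ℕ} (h : GD d v) (hc : co v ≤ (d + 2).choose 2) :
    SurM v (TZ d) := by
  refine (h (fun i : Fin v.toList.length => v.toList.get i) (ms_toList v)).2 ?_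
  rw [cond_ms, ms_toList]
  exact hc

theorem exT {q : ℕ} (hq : 1 ≤ q) : ∃ D : ℕ, (D + 2).choose 2 ≤ q ∧ q < (D + 1 + 2).choose 2 := by
  have hex : ∃ D : ℕ, q < (D + 1 + 2).choose 2 := by
    refine ⟨q, ?_⟩
    rw [T_succ]
    omega
  classical
  obtain ⟨D, hD, hmin⟩ : ∃ D : ℕ, q < (D + 1 + 2).choose 2 ∧ ∀ j < D, ¬ q < (j + 1 + 2).choose 2 :=
    ⟨Nat.find hex, Nat.find_spec hex, fun j hj => Nat.find_min hex hj⟩
  refine ⟨D, ?_, hD⟩
  rcases Nat.eq_zero_or_pos D with h | h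
  · subst h
    exact hq
  · obtain ⟨j, rfl⟩ : ∃ j, D = j + 1 := ⟨D - 1, by omega⟩
    exact not_lt.1 (hmin j (by omega))

theorem co_halves (b : ℕ) : co (halves b) = (b + 1).choose 2 + (b + 1) / 2 := by
  have e : co (halves b) = 2 * (b / 2 + 1).choose 2 + 2 * ((b + 1) / 2 + 1).choose 2 := by
    unfold co halves
    simp only [Multiset.insert_eq_cons, Multiset.map_cons, Multiset.map_singleton,
      Multiset.sum_cons, Multiset.sum_singleton]
    ring
  rw [e, two_C, two_C]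
  have h1 := two_C b
  rcases Nat.even_or_odd' b with ⟨h, rfl | rfl⟩
  · have e1 : 2 * h / 2 = h := by omega
    have e2 : (2 * h + 1) / 2 = h := by omega
    rw [e1, e2]
    nlinarith
  · have e1 : (2 * h + 1) / 2 = h := by omega
    have e2 : (2 * h + 1 + 1) / 2 = h + 1 := by omega
    rw [e1, e2]
    nlinarith

theorem co_halves' (b : ℕ) : (b + 2).choose 2 = co (halves b) + (b + 2) / 2 := by
  rw [co_halves]
  have := C_succ b
  have e : b + 1 + 1 = b + 2 := rfl
  rw [e] at this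
  omega

theorem co_halves_le (b : ℕ) : co (halves b) ≤ 2 * ((b + 1) / 2 * ((b + 1) / 2 + 1)) := by
  have e : co (halves b) = 2 * (b / 2 + 1).choose 2 + 2 * ((b + 1) / 2 + 1).choose 2 := by
    unfold co halves
    simp only [Multiset.insert_eq_cons, Multiset.map_cons, Multiset.map_singleton,
      Multiset.sum_cons, Multiset.sum_singleton]
    ring
  rw [e, two_C, two_C]
  have h1 : b / 2 ≤ (b + 1) / 2 := by omega
  have h2 : b / 2 * (b / 2 + 1) ≤ (b + 1) / 2 * ((b + 1) / 2 + 1) :=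
    Nat.mul_le_mul h1 (by omega)
  omega

theorem gd_block {N b : ℕ} (hN : 37 ≤ N) (hb : 1 ≤ b) (d : ℕ) : GD d (N • {b}) :=
  GD.uniform hb (Or.inl hN)

theorem gd_halves {N b : ℕ} (hN : 37 ≤ N) (hb : 1 ≤ b) (d : ℕ) : GD d (N • halves b) := by
  have h : GD d (N • halves b + 0) := GD.four (by omega) hb
    (by rw [add_zero]; exact gd_block hN hb d) (by rw [add_zero]; exact gd_block hN (by omega) d)
  rwa [add_zero] at h

/-- **The first regime**: few small points. -/
theorem regime1 {N b E D : ℕ} {M : Multiset ℕ} (hN : 37 ≤ N) (hb : 1 ≤ b) (hE : 1 ≤ E)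
    (hM : ∀ x ∈ M, 1 ≤ x ∧ x ≤ E) (h1 : (D + 2).choose 2 ≤ co (N • halves b + M))
    (h2 : co (N • halves b + M) < (D + 1 + 2).choose 2)
    (h3 : (3 * E + 2) * (D + 2) ≤ N * ((b + 1) / 2)) :
    GD D (N • halves b + M) ∧ GD (D + 1) (N • halves b + M) := by
  obtain ⟨h, hh⟩ : ∃ h, h = (b + 1) / 2 := ⟨_, rfl⟩
  obtain ⟨h', hh'⟩ : ∃ h', h' = (b + 2) / 2 := ⟨_, rfl⟩
  have hhh : h ≤ h' := by omega
  obtain ⟨q, hq⟩ : ∃ q, q = co (N • ({b} : Multiset ℕ)) := ⟨_, rfl⟩
  obtain ⟨q', hq'⟩ : ∃ q', q' = co (N • ({b + 1} : Multiset ℕ)) := ⟨_, rfl⟩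
  obtain ⟨cM, hcM⟩ : ∃ cM, cM = co M := ⟨_, rfl⟩
  have eq0 : co (N • halves b + M) = q + N * h + cM := by
    rw [co_add, co_smul, co_halves, hq, co_smul, co_single, hh, hcM]
    ring
  have eq1 : q' = q + N * h + N * h' := by
    rw [hq', co_smul, co_single, co_halves', co_halves, hq, co_smul, co_single, hh, hh']
    ring
  have hNh : N * h ≤ N * h' := Nat.mul_le_mul_left N hhh
  rw [← hh] at h3
  rw [eq0] at h1 h2
  have hT := T_succ D
  have h3' : (3 * E + 2) * (D + 2) = 3 * E * (D + 1) + (3 * E + 2 * (D + 2)) := by ring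
  have hqpos : 1 ≤ q := by
    rw [hq, co_smul, co_single]
    have : 1 ≤ (b + 1).choose 2 := Nat.choose_pos (by omega)
    nlinarith
  -- independence
  have hS : SurM (N • {b} + M) (TZ D) := by
    obtain ⟨D', a1, a2⟩ := exT hqpos
    have a3 := T_succ D'
    have a4 : D' < D := by
      by_contra hc
      push Not at hc
      have : (D + 2).choose 2 ≤ (D' + 2).choose 2 := Nat.choose_le_choose 2 (by omega)
      omega
    obtain ⟨g, rfl⟩ : ∃ g, E = 1 + g := ⟨E - 1, by omega⟩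
    refine lemS (g + D) D 1 g (D' + 1) _ M le_rfl le_rfl (fun x hx => hM x hx)
      (ofS (gd_block hN hb _) (by rw [← hq]; omega)) ?_
    have e1 : TH2.NU.condM M = cM := hcM.symm
    rw [e1]
    have e2 : (2 * g + (1 + g)) * (D + 1) + 2 * (D + 1) = 3 * (1 + g) * (D + 1) := by ring
    omega
  -- emptiness
  have hEm : EmpM (N • {b + 1} + M) (TZ (D + 1)) := by
    obtain ⟨D1, a1, a2⟩ := exT (q := q') (by omega)
    have a3 := T_succ D1
    have hW : EmpM (N • {b + 1}) (TZ D1) :=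
      ofE (gd_block hN (by omega) _) (by rw [← hq']; exact a1)
    rcases le_or_gt (D + 1) D1 with hc | hc
    · exact (hW.mono_set (TZ_sub hc)).mono (Multiset.le_add_right _ M)
    · refine lemE (D + 1 + E) (D + 1) E D1 _ M le_rfl (fun x hx => (hM x hx).2) hW ?_
      have e1 : TH2.NU.condM M = cM := hcM.symm
      rw [e1]
      have e2 : 2 * E * (D + 1 + 1) + (E * (D + 2) + 2 * (D + 2)) = (3 * E + 2) * (D + 2) := by ring
      omega
  have hS' : ∀ d, D ≤ d → GD d (N • {b} + M) := gdS (by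
    rw [co_add, ← hq, ← hcM]
    omega) hS
  have hE' : ∀ d ≤ D + 1, GD d (N • {b + 1} + M) := gdE (by
    rw [co_add, ← hq', ← hcM]
    omega) hEm
  exact ⟨GD.four (by omega) hb (hS' D le_rfl) (hE' D (by omega)),
    GD.four (by omega) hb (hS' (D + 1) (by omega)) (hE' (D + 1) le_rfl)⟩

theorem halves_two (v : ℕ) : halves (2 * v) = 4 • {v} := by
  unfold halves
  have e1 : 2 * v / 2 = v := by omega
  have e2 : (2 * v + 1) / 2 = v := by omega
  rw [e1, e2]
  rfl

/-- **The second regime**: many small points. -/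
theorem regime2 {W M : Multiset ℕ} {E D v K : ℕ} (hE : 1 ≤ E) (hW : ∀ d, GD d W)
    (hWpos : 1 ≤ co W) (hM : ∀ x ∈ M, 1 ≤ x ∧ x ≤ E) (h1 : (D + 2).choose 2 ≤ co (W + M))
    (h2 : co (W + M) < (D + 1 + 2).choose 2) (hv1 : 1 ≤ v) (hvE : v ≤ E)
    (hK : 4 * K ≤ M.count v) (hKv : (6 * E + 2) * (D + 2) ≤ K * v) :
    GD D (W + M) ∧ GD (D + 1) (W + M) := by
  obtain ⟨j, hj⟩ := Nat.exists_eq_add_of_le hK
  obtain ⟨R, hR⟩ : ∃ R, R = j • {v} + M.filter (fun x => x ≠ v) := ⟨_, rfl⟩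
  have hMs : M = (4 * K) • {v} + R := by
    rw [hR, ← add_assoc, ← add_smul, ← hj]
    exact split_count M v
  have hX : W + M = K • halves (2 * v) + (W + R) := by
    rw [hMs, halves_two, ← mul_smul, add_left_comm, mul_comm 4 K]
  have hRm : ∀ x ∈ R, 1 ≤ x ∧ x ≤ E := fun x hx => hM x (by
    rw [hMs]; exact Multiset.mem_add.2 (Or.inr hx))
  have hKpos : 1 ≤ K := by
    rcases Nat.eq_zero_or_pos K with h | h
    · subst h
      nlinarith
    · exact h
  obtain ⟨q, hq⟩ : ∃ q, q = co W := ⟨_, rfl⟩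
  obtain ⟨cR, hcR⟩ : ∃ cR, cR = co R := ⟨_, rfl⟩
  obtain ⟨C, hC⟩ : ∃ C, C = (2 * v + 1).choose 2 := ⟨_, rfl⟩
  have hCh : co (halves (2 * v)) = C + v := by
    rw [co_halves, hC]
    omega
  have hC2 : (2 * v + 2).choose 2 = C + v + (v + 1) := by
    rw [co_halves', hCh]
    omega
  have eq0 : co (W + M) = K * C + K * v + (q + cR) := by
    rw [hX, co_add, co_smul, hCh, co_add, ← hq, ← hcR]
    ring
  rw [eq0] at h1 h2
  have hT := T_succ D
  obtain ⟨D3, a1, a2⟩ := exT (q := q) (by omega)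
  have a3 := T_succ D3
  have hD3 : D3 ≤ D := by
    by_contra hc
    push Not at hc
    have : (D + 1 + 2).choose 2 ≤ (D3 + 2).choose 2 := Nat.choose_le_choose 2 (by omega)
    omega
  have b1 : (6 * E + 2) * (D + 2) = 6 * E * (D + 2) + 2 * (D + 2) := by ring
  have hKC : TH2.NU.condM (K • {2 * v} + R) = K * C + cR := by
    rw [condM_pc, hC, hcR]
    rfl
  have hKC' : TH2.NU.condM (K • {2 * v + 1} + R) = K * C + K * v + (K * (v + 1) + cR) := by
    rw [condM_pc, show 2 * v + 1 + 1 = 2 * v + 2 by rfl, hC2, hcR]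
    show _ + TH2.NU.condM R = _ + (_ + TH2.NU.condM R)
    ring
  have b2 : K * (v + 1) = K * v + K := by ring
  have hS : SurM (W + (K • {2 * v} + R)) (TZ D) := by
    refine lemS (2 * E - 1 + D) D 1 (2 * E - 1) (D3 + 1) _ _ le_rfl le_rfl ?_
      (ofS (hW _) (by rw [← hq]; omega)) ?_
    · intro x hx
      rcases Multiset.mem_add.1 hx with hx | hx
      · have := Multiset.mem_singleton.1 (Multiset.mem_of_mem_nsmul hx)
        omega
      · have := hRm x hx
        omega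
    · rw [hKC]
      obtain ⟨g, rfl⟩ : ∃ g, E = 1 + g := ⟨E - 1, by omega⟩
      have e1 : 2 * (1 + g) - 1 = 2 * g + 1 := by omega
      rw [e1]
      have e2 : (2 * (2 * g + 1) + (1 + (2 * g + 1))) * (D + 1) + 2 * (D + 1) =
          6 * (1 + g) * (D + 1) := by ring
      have e3 : 6 * (1 + g) * (D + 2) = 6 * (1 + g) * (D + 1) + 6 * (1 + g) := by ring
      omega
  have hEm : EmpM (W + (K • {2 * v + 1} + R)) (TZ (D + 1)) := by
    refine lemE (D + 1 + (2 * E + 1)) (D + 1) (2 * E + 1) D3 _ _ le_rfl ?_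
      (ofE (hW _) (by rw [← hq]; exact a1)) ?_
    · intro x hx
      rcases Multiset.mem_add.1 hx with hx | hx
      · have := Multiset.mem_singleton.1 (Multiset.mem_of_mem_nsmul hx)
        omega
      · have := hRm x hx
        omega
    · rw [hKC']
      have e1 : 2 * (2 * E + 1) * (D + 1 + 1) = 4 * E * (D + 2) + 2 * (D + 2) := by ring
      have e2 : 6 * E * (D + 2) = 4 * E * (D + 2) + 2 * E * (D + 2) := by ring
      have e3 : 2 * (D + 2) ≤ 2 * E * (D + 2) := by nlinarith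
      omega
  have x1 : K • {2 * v} + (W + R) = W + (K • {2 * v} + R) := add_left_comm _ _ _
  have x2 : K • {2 * v + 1} + (W + R) = W + (K • {2 * v + 1} + R) := add_left_comm _ _ _
  have hS' : ∀ d, D ≤ d → GD d (K • {2 * v} + (W + R)) := by
    rw [x1]
    refine gdS ?_ hS
    rw [co_add, ← hq]
    have : co (K • {2 * v} + R) = K * C + cR := hKC
    rw [this]
    omega
  have hE' : ∀ d ≤ D + 1, GD d (K • {2 * v + 1} + (W + R)) := by
    rw [x2]
    refine gdE ?_ hEm
    rw [co_add, ← hq]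
    have : co (K • {2 * v + 1} + R) = K * C + K * v + (K * (v + 1) + cR) := hKC'
    rw [this]
    omega
  rw [hX]
  exact ⟨GD.four hKpos (by omega) (hS' D le_rfl) (hE' D (by omega)),
    GD.four hKpos (by omega) (hS' (D + 1) (by omega)) (hE' (D + 1) le_rfl)⟩

/-- if no multiplicity occurs often, there are few conditions -/
theorem few {M : Multiset ℕ} {E Q : ℕ} (hM : ∀ x ∈ M, 1 ≤ x ∧ x ≤ E)
    (h : ∀ v, 1 ≤ v → v ≤ E → (M.count v / 4) * v < Q) :
    2 * co M ≤ E * ((4 * Q + 3 * E) * (E + 1)) := by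
  classical
  have h1 : co M = ∑ x ∈ M.toFinset, M.count x * (x + 1).choose 2 := by
    unfold co
    rw [Finset.sum_multiset_map_count]
    simp only [smul_eq_mul]
  rw [h1, Finset.mul_sum]
  have hsub : M.toFinset ⊆ Icc 1 E := by
    intro x hx
    rw [Multiset.mem_toFinset] at hx
    exact mem_Icc.2 (hM x hx)
  calc ∑ x ∈ M.toFinset, 2 * (M.count x * (x + 1).choose 2)
      ≤ ∑ x ∈ Icc 1 E, 2 * (M.count x * (x + 1).choose 2) :=
        sum_le_sum_of_subset hsub
    _ ≤ ∑ _x ∈ Icc 1 E, (4 * Q + 3 * E) * (E + 1) := by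
        refine sum_le_sum fun x hx => ?_
        obtain ⟨hx1, hx2⟩ := mem_Icc.1 hx
        have h2 := h x hx1 hx2
        have h3 : M.count x ≤ 4 * (M.count x / 4) + 3 := by omega
        calc 2 * (M.count x * (x + 1).choose 2) = M.count x * (2 * (x + 1).choose 2) := by ring
          _ = M.count x * x * (x + 1) := by rw [two_C]; ring
          _ ≤ (4 * (M.count x / 4) + 3) * x * (x + 1) := by gcongr
          _ = (4 * (M.count x / 4 * x) + 3 * x) * (x + 1) := by ring
          _ ≤ (4 * Q + 3 * E) * (E + 1) := by gcongr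
    _ = E * ((4 * Q + 3 * E) * (E + 1)) := by
        rw [sum_const, Nat.card_Icc, smul_eq_mul, Nat.add_sub_cancel]

theorem big_contra {N h E y cM cH : ℕ} (hE : 1 ≤ E) (hy : 1 ≤ y)
    (hN : 6 * (3 * E + 2) ^ 2 ≤ N) (hh : 5 * (E + 2) ^ 2 ≤ h) (h3 : N * h < (3 * E + 2) * y)
    (hcH : cH ≤ 2 * (h * (h + 1)))
    (hcM : 2 * cM ≤ E * ((4 * ((6 * E + 2) * y) + 3 * E) * (E + 1)))
    (hc : (y - 1) * y ≤ 2 * (N * cH + cM)) : False := by
  obtain ⟨a, ha⟩ : ∃ a, a = 3 * E + 2 := ⟨_, rfl⟩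
  rw [← ha] at hN h3
  have ha0 : 0 < a := by omega
  -- 6 a h < y
  have k1 : 6 * a * h < y := by
    have k2 : a * (6 * a * h) < a * y := by
      calc a * (6 * a * h) = 6 * a ^ 2 * h := by ring
        _ ≤ N * h := Nat.mul_le_mul_right h hN
        _ < a * y := h3
    exact lt_of_mul_lt_mul_left k2 (Nat.zero_le a)
  have k3 : 2 * (N * cH) ≤ 4 * (N * h * (h + 1)) := by
    have := Nat.mul_le_mul_left N hcH
    calc 2 * (N * cH) ≤ 2 * (N * (2 * (h * (h + 1)))) := Nat.mul_le_mul_left 2 this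
      _ = _ := by ring
  have k4 : 3 * (4 * (N * h * (h + 1))) ≤ (2 * y + 12 * a) * y := by
    calc 3 * (4 * (N * h * (h + 1))) ≤ 3 * (4 * ((a * y) * (h + 1))) := by
          gcongr
      _ = (2 * (6 * a * h) + 12 * a) * y := by ring
      _ ≤ (2 * y + 12 * a) * y := by gcongr
  have k5 : 2 * cM ≤ (E * (E + 1) * (27 * E + 8)) * y := by
    refine hcM.trans ?_
    calc E * ((4 * ((6 * E + 2) * y) + 3 * E) * (E + 1))
        ≤ E * ((4 * ((6 * E + 2) * y) + 3 * E * y) * (E + 1)) := by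
          have : 3 * E ≤ 3 * E * y := Nat.le_mul_of_pos_right _ hy
          gcongr
      _ = _ := by ring
  have k6 : (3 * (y - 1)) * y ≤ (2 * y + 12 * a + 3 * (E * (E + 1) * (27 * E + 8))) * y := by
    have e1 : (3 * (y - 1)) * y = 3 * ((y - 1) * y) := by ring
    have e2 : (2 * y + 12 * a + 3 * (E * (E + 1) * (27 * E + 8))) * y =
        (2 * y + 12 * a) * y + 3 * ((E * (E + 1) * (27 * E + 8)) * y) := by ring
    rw [e1, e2]
    omega
  have k7 := Nat.le_of_mul_le_mul_right k6 hy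
  have k8 : 6 * a * (5 * (E + 2) ^ 2) ≤ 6 * a * h := Nat.mul_le_mul_left _ hh
  have k9 : 3 + 12 * a + 3 * (E * (E + 1) * (27 * E + 8)) ≤ 6 * a * (5 * (E + 2) ^ 2) := by
    rw [ha]
    nlinarith [Nat.zero_le (E ^ 3), Nat.zero_le (E ^ 2)]
  omega

/-- **Main theorem.** -/
theorem main {N b E : ℕ} {M : Multiset ℕ} (hE : 1 ≤ E) (hN : 6 * (3 * E + 2) ^ 2 ≤ N)
    (hb : 10 * (E + 2) ^ 2 ≤ b) (hM : ∀ x ∈ M, 1 ≤ x ∧ x ≤ E) :
    ∃ D : ℕ, (D + 2).choose 2 ≤ co (N • halves b + M) ∧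
      co (N • halves b + M) < (D + 1 + 2).choose 2 ∧
      GD D (N • halves b + M) ∧ GD (D + 1) (N • halves b + M) := by
  have hE5 : 25 ≤ (3 * E + 2) ^ 2 := by nlinarith
  have hE3 : 9 ≤ (E + 2) ^ 2 := by nlinarith
  have hN37 : 37 ≤ N := by omega
  have hb1 : 1 ≤ b := by omega
  have hpos : 1 ≤ co (N • halves b) := by
    rw [co_smul, co_halves]
    have : 1 ≤ (b + 1).choose 2 := Nat.choose_pos (by omega)
    exact Nat.mul_pos (by omega) (by omega)
  obtain ⟨D, h1, h2⟩ := exT (q := co (N • halves b + M)) (by rw [co_add]; omega)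
  refine ⟨D, h1, h2, ?_⟩
  rcases le_or_gt ((3 * E + 2) * (D + 2)) (N * ((b + 1) / 2)) with h3 | h3
  · exact regime1 hN37 hb1 hE hM h1 h2 h3
  · by_cases hex : ∃ v, 1 ≤ v ∧ v ≤ E ∧ (6 * E + 2) * (D + 2) ≤ (M.count v / 4) * v
    · obtain ⟨v, hv1, hvE, hv⟩ := hex
      exact regime2 hE (gd_halves hN37 hb1) hpos hM h1 h2 hv1 hvE
        (K := M.count v / 4) (by omega) hv
    · exfalso
      push Not at hex
      have h4 := few hM hex
      refine big_contra (N := N) (h := (b + 1) / 2) (E := E) (y := D + 2) (cM := co M)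
        (cH := co (halves b)) hE (by omega) hN (by omega) h3 (co_halves_le b) h4 ?_
      have h5 := two_T D
      rw [co_add, co_smul] at h1
      have e : (D + 2 - 1) * (D + 2) = (D + 1) * (D + 2) := rfl
      rw [e, ← h5]
      omega

end Pool.Agent.K7.H57.SP
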