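import Pool.Agent.K7.H57.SP.Main
import Pool.Agent.TH545.SD.Dh

/-! Small points added to arbitrary points. -/

set_option autoImplicit false

namespace Pool.Agent.K7.H57.SP

open Finset Pool.Agent.TH176.Nag Pool.Agent.TH603.Sur Pool.Agent.TH641.UM Pool.Agent.TH2.NU
  Pool.Agent.TH545.SD

/-- **Many small points are added to arbitrary points.** -/
theorem relative {W M : Multiset ℕ} {E D v K e f δ : ℕ} (hE : 1 ≤ E) (hWe : EmpM W (TZ e))
    (hWf : SurM W (TZ f)) (hf : (f + 2).choose 2 ≤ co W + δ) (he : co W ≤ (e + 2).choose 2 + δ)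
    (hM : ∀ x ∈ M, 1 ≤ x ∧ x ≤ E) (h1 : (D + 2).choose 2 ≤ co (W + M))
    (h2 : co (W + M) < (D + 1 + 2).choose 2) (hv1 : 1 ≤ v) (hvE : v ≤ E)
    (hK : 4 * K ≤ M.count v) (hKv : 6 * E * (D + 2) + δ ≤ K * v) :
    GD D (W + M) ∧ GD (D + 1) (W + M) := by
  obtain ⟨j, hj⟩ := Nat.exists_eq_add_of_le hK
  obtain ⟨R, hR⟩ : ∃ R, R = j • {v} + M.filter (fun x => x ≠ v) := ⟨_, rfl⟩
  have hMs : M = (4 * K) • {v} + R := by
    rw [hR, ← add_assoc, ← add_smul, ← hj]
    exact split_count M v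
  have hX : W + M = K • halves (2 * v) + (W + R) := by
    rw [hMs, halves_two, ← mul_smul, add_left_comm, mul_comm 4 K]
  have hRm : ∀ x ∈ R, 1 ≤ x ∧ x ≤ E := fun x hx => hM x (by
    rw [hMs]; exact Multiset.mem_add.2 (Or.inr hx))
  have hKpos : 1 ≤ K := by
    rcases Nat.eq_zero_or_pos K with h | h
    · subst h
      nlinarith
    · exact h
  obtain ⟨q, hq⟩ : ∃ q, q = co W := ⟨_, rfl⟩
  obtain ⟨cR, hcR⟩ : ∃ cR, cR = co R := ⟨_, rfl⟩
  obtain ⟨C, hC⟩ : ∃ C, C = (2 * v + 1).choose 2 := ⟨_, rfl⟩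
  have hCh : co (halves (2 * v)) = C + v := by
    rw [co_halves, hC]
    omega
  have hC2 : (2 * v + 2).choose 2 = C + v + (v + 1) := by
    rw [co_halves', hCh]
    omega
  have eq0 : co (W + M) = K * C + K * v + (q + cR) := by
    rw [hX, co_add, co_smul, hCh, co_add, ← hq, ← hcR]
    ring
  rw [eq0] at h1 h2
  rw [← hq] at hf he
  have hT := T_succ D
  have hKC : TH2.NU.condM (K • {2 * v} + R) = K * C + cR := by
    rw [condM_pc, hC, hcR]
    rfl
  have hKC' : TH2.NU.condM (K • {2 * v + 1} + R) = K * C + K * v + (K * (v + 1) + cR) := by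
    rw [condM_pc, show 2 * v + 1 + 1 = 2 * v + 2 by rfl, hC2, hcR]
    show _ + TH2.NU.condM R = _ + (_ + TH2.NU.condM R)
    ring
  have b2 : K * (v + 1) = K * v + K := by ring
  have hS : SurM (W + (K • {2 * v} + R)) (TZ D) := by
    refine lemS (2 * E - 1 + D) D 1 (2 * E - 1) f _ _ le_rfl le_rfl ?_ hWf ?_
    · intro x hx
      rcases Multiset.mem_add.1 hx with hx | hx
      · have := Multiset.mem_singleton.1 (Multiset.mem_of_mem_nsmul hx)
        omega
      · have := hRm x hx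
        omega
    · rw [hKC]
      obtain ⟨g, rfl⟩ : ∃ g, E = 1 + g := ⟨E - 1, by omega⟩
      have e1 : 2 * (1 + g) - 1 = 2 * g + 1 := by omega
      rw [e1]
      have e2 : (2 * (2 * g + 1) + (1 + (2 * g + 1))) * (D + 1) + 2 * (D + 1) =
          6 * (1 + g) * (D + 1) := by ring
      have e3 : 6 * (1 + g) * (D + 2) = 6 * (1 + g) * (D + 1) + 6 * (1 + g) := by ring
      omega
  have hEm : EmpM (W + (K • {2 * v + 1} + R)) (TZ (D + 1)) := by
    refine lemE (D + 1 + (2 * E + 1)) (D + 1) (2 * E + 1) e _ _ le_rfl ?_ hWe ?_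
    · intro x hx
      rcases Multiset.mem_add.1 hx with hx | hx
      · have := Multiset.mem_singleton.1 (Multiset.mem_of_mem_nsmul hx)
        omega
      · have := hRm x hx
        omega
    · rw [hKC']
      have e1 : 2 * (2 * E + 1) * (D + 1 + 1) = 4 * E * (D + 2) + 2 * (D + 2) := by ring
      have e2 : 6 * E * (D + 2) = 4 * E * (D + 2) + 2 * E * (D + 2) := by ring
      have e3 : 2 * (D + 2) ≤ 2 * E * (D + 2) := by nlinarith
      have e4 : D + 2 ≤ K := by
        have g1 : E * (6 * (D + 2)) ≤ E * K := by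
          calc E * (6 * (D + 2)) = 6 * E * (D + 2) := by ring
            _ ≤ K * v := by omega
            _ ≤ K * E := Nat.mul_le_mul_left K hvE
            _ = E * K := by ring
        have g2 := Nat.le_of_mul_le_mul_left g1 hE
        omega
      omega
  have x1 : K • {2 * v} + (W + R) = W + (K • {2 * v} + R) := add_left_comm _ _ _
  have x2 : K • {2 * v + 1} + (W + R) = W + (K • {2 * v + 1} + R) := add_left_comm _ _ _
  have hS' : ∀ d, D ≤ d → GD d (K • {2 * v} + (W + R)) := by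
    rw [x1]
    refine gdS ?_ hS
    rw [co_add, ← hq]
    have : co (K • {2 * v} + R) = K * C + cR := hKC
    rw [this]
    have e5 : D + 2 ≤ 6 * E * (D + 2) := Nat.le_mul_of_pos_left _ (by omega)
    omega
  have hE' : ∀ d ≤ D + 1, GD d (K • {2 * v + 1} + (W + R)) := by
    rw [x2]
    refine gdE ?_ hEm
    rw [co_add, ← hq]
    have : co (K • {2 * v + 1} + R) = K * C + K * v + (K * (v + 1) + cR) := hKC'
    rw [this]
    have e5 : D + 2 ≤ 6 * E * (D + 2) := Nat.le_mul_of_pos_left _ (by omega)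
    omega
  rw [hX]
  exact ⟨GD.four hKpos (by omega) (hS' D le_rfl) (hE' D (by omega)),
    GD.four hKpos (by omega) (hS' (D + 1) (by omega)) (hE' (D + 1) le_rfl)⟩

end Pool.Agent.K7.H57.SP
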