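import Pool.Agent.TH545.SD.Gd
import Pool.Agent.TH2.NU.Multi
import Pool.Agent.TH335.EN.EndS

/-! Strips of a triangle of exponents, filled with points of one small multiplicity. -/

set_option autoImplicit false

namespace Pool.Agent.K7.H57.SP

open Finset Pool.Agent.TH176.Nag Pool.Agent.TH603.Sur Pool.Agent.TH641.UM Pool.Agent.TH2.NU

/-- cutting the exponents by a line, emptiness -/
theorem cutE {M M' : Multiset ℕ} {S T : Set (ℤ × ℤ)} (hS : S.Finite) (hT : T.Finite)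
    (hS0 : ∀ m ∈ S, 0 ≤ m.1 ∧ 0 ≤ m.2) (hT0 : ∀ m ∈ T, 0 ≤ m.1 ∧ 0 ≤ m.2) (a b : ℤ)
    (hcut : ∀ m ∈ S, ∀ m' ∈ T, a * m.1 + b * m.2 < a * m'.1 + b * m'.2)
    (h1 : EmpM M S) (h2 : EmpM M' T) : EmpM (M + M') (S ∪ T) := by
  refine (EmpM_iff (w := Sum.elim (fun i : Fin M.toList.length => M.toList.get i)
    (fun i : Fin M'.toList.length => M'.toList.get i)) ?_ _).2 ?_
  · rw [ms_sum, ms_toList, ms_toList]
  · exact Pool.Agent.TH698.NagT3.Emp_cut hS hT hS0 hT0 a b hcut h1 h2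

/-- cutting the exponents by a line, independence -/
theorem cutS {M M' : Multiset ℕ} {S T : Set (ℤ × ℤ)}
    (hS0 : ∀ m ∈ S, 0 ≤ m.1 ∧ 0 ≤ m.2) (hT0 : ∀ m ∈ T, 0 ≤ m.1 ∧ 0 ≤ m.2) (a b : ℤ)
    (hcut : ∀ m ∈ S, ∀ m' ∈ T, a * m.1 + b * m.2 < a * m'.1 + b * m'.2)
    (h1 : SurM M S) (h2 : SurM M' T) : SurM (M + M') (S ∪ T) := by
  refine (SurM_iff (w := Sum.elim (fun i : Fin M.toList.length => M.toList.get i)
    (fun i : Fin M'.toList.length => M'.toList.get i)) ?_ _).2 ?_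
  · rw [ms_sum, ms_toList, ms_toList]
  · exact Pool.Agent.TH335.EN.Sur_cut hS0 hT0 a b hcut h1 h2

theorem SurM.mono_set {M : Multiset ℕ} {S S' : Set (ℤ × ℤ)} (h : SurM M S) (hS : S ⊆ S') :
    SurM M S' := Sur.mono h hS

theorem SurM.comap' {M : Multiset ℕ} {S S' : Set (ℤ × ℤ)} (h : SurM M S') (a b c d u v : ℤ)
    (hdet : a * d - b * c ≠ 0)
    (hS : ∀ m' ∈ S', ∃ m ∈ S, (a * m.1 + b * m.2 + u, c * m.1 + d * m.2 + v) = m') : SurM M S :=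
  Sur.comap h a b c d u v hdet hS

theorem EmpM.comap' {M : Multiset ℕ} {S S' : Set (ℤ × ℤ)} (h : EmpM M S') (a b c d u v : ℤ)
    (hdet : a * d - b * c ≠ 0)
    (hS : ∀ m ∈ S, (a * m.1 + b * m.2 + u, c * m.1 + d * m.2 + v) ∈ S') : EmpM M S :=
  Emp.comap h a b c d u v hdet hS

/-- the triangle of side `v` at `(A, 0)` -/
def Up (A : ℤ) (v : ℕ) : Set (ℤ × ℤ) := {m | A ≤ m.1 ∧ 0 ≤ m.2 ∧ m.1 + m.2 < A + v}

/-- the opposite triangle -/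
def Dn (A : ℤ) (v : ℕ) : Set (ℤ × ℤ) := {m | m.1 ≤ A + v ∧ m.2 < v ∧ A + v ≤ m.1 + m.2}

theorem upE (A : ℤ) (v : ℕ) : EmpM {v} (Up A v) := by
  refine (EmpM_iff (w := fun _ : Fin 1 => v) (by rw [ms_fin, one_smul]) _).2 ?_
  refine (Emp_rows (fun _ : Fin 1 => v) A).mono ?_
  rintro ⟨x, y⟩ ⟨h1, h2, h3⟩
  simp only at h1 h2 h3
  refine ⟨h2, h1, ?_⟩
  simp only [sum_const, card_univ, Fintype.card_fin, one_smul]
  omega

theorem upS (A : ℤ) (v : ℕ) : SurM {v} (Up A v) := by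
  refine (SurM_iff (w := fun _ : Fin 1 => v) (by rw [ms_fin, one_smul]) _).2 ?_
  apply Sur_rows (fun _ : Fin 1 => v) A
  intro k j hj
  simp only [sum_const, card_univ, Fintype.card_fin, one_smul] at hj
  exact ⟨by simp, by simp, by simp only; omega⟩

theorem dnE (A : ℤ) (v : ℕ) : EmpM {v} (Dn A v) := by
  refine EmpM.comap' (upE 0 v) (-1) 0 0 (-1) (A + v) (v - 1) (by norm_num) ?_
  rintro ⟨x, y⟩ ⟨h1, h2, h3⟩
  simp only at h1 h2 h3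
  exact ⟨by simp only; omega, by simp only; omega, by simp only; omega⟩

theorem dnS (A : ℤ) (v : ℕ) : SurM {v} (Dn A v) := by
  refine SurM.comap' (upS 0 v) (-1) 0 0 (-1) (A + v) (v - 1) (by norm_num) ?_
  rintro ⟨x, y⟩ ⟨h1, h2, h3⟩
  simp only at h1 h2 h3
  refine ⟨(A + v - x, v - 1 - y), ⟨by simp only; omega, by simp only; omega, by simp only; omega⟩, ?_⟩
  ext
  · simp only; ring
  · simp only; ring

/-- the box of width `q (v + 1)` and height `v` -/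
def Bx (q v : ℕ) : Set (ℤ × ℤ) := {m | 0 ≤ m.1 ∧ m.1 < q * (v + 1) ∧ 0 ≤ m.2 ∧ m.2 < v}

theorem finite_of_box {S : Set (ℤ × ℤ)} (N : ℤ)
    (h : ∀ m ∈ S, 0 ≤ m.1 ∧ m.1 ≤ N ∧ 0 ≤ m.2 ∧ m.2 ≤ N) : S.Finite := by
  apply Set.Finite.subset (Set.finite_Icc ((0, 0) : ℤ × ℤ) (N, N))
  rintro ⟨x, y⟩ hm
  obtain ⟨h1, h2, h3, h4⟩ := h _ hm
  rw [Set.mem_Icc, Prod.mk_le_mk, Prod.mk_le_mk]
  exact ⟨⟨h1, h3⟩, h2, h4⟩

theorem bx_succ (q v : ℕ) : Bx (q + 1) v =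
    Bx q v ∪ (Up ((q : ℤ) * (v + 1)) v ∪ Dn ((q : ℤ) * (v + 1)) v) := by
  have hq : (0 : ℤ) ≤ (q : ℤ) * (v + 1) := by positivity
  have e : (((q + 1 : ℕ) : ℤ)) * ((v : ℤ) + 1) = (q : ℤ) * (v + 1) + v + 1 := by push_cast; ring
  ext ⟨x, y⟩
  simp only [Bx, Up, Dn, Set.mem_union, Set.mem_ofPred_eq]
  rw [e]
  generalize (q : ℤ) * ((v : ℤ) + 1) = A at *
  omega

theorem up_nonneg {A : ℤ} (hA : 0 ≤ A) (v : ℕ) : ∀ m ∈ Up A v, 0 ≤ m.1 ∧ 0 ≤ m.2 := by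
  rintro ⟨x, y⟩ ⟨h1, h2, h3⟩
  simp only at h1 h2 h3 ⊢
  omega

theorem dn_nonneg {A : ℤ} (hA : 0 ≤ A) (v : ℕ) : ∀ m ∈ Dn A v, 0 ≤ m.1 ∧ 0 ≤ m.2 := by
  rintro ⟨x, y⟩ ⟨h1, h2, h3⟩
  simp only at h1 h2 h3 ⊢
  omega

theorem up_finite {A : ℤ} (hA : 0 ≤ A) (v : ℕ) : (Up A v).Finite := by
  apply finite_of_box (A + v)
  rintro ⟨x, y⟩ ⟨h1, h2, h3⟩
  simp only at h1 h2 h3 ⊢
  omega

theorem dn_finite {A : ℤ} (hA : 0 ≤ A) (v : ℕ) : (Dn A v).Finite := by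
  apply finite_of_box (A + v)
  rintro ⟨x, y⟩ ⟨h1, h2, h3⟩
  simp only at h1 h2 h3 ⊢
  omega

theorem bx_finite (q v : ℕ) : (Bx q v).Finite := by
  apply finite_of_box ((q : ℤ) * (v + 1) + v)
  have hq : (0 : ℤ) ≤ (q : ℤ) * (v + 1) := by positivity
  rintro ⟨x, y⟩ ⟨h1, h2, h3, h4⟩
  simp only at h1 h2 h3 h4 ⊢
  omega

theorem smul_split (q v : ℕ) : (2 * (q + 1)) • ({v} : Multiset ℕ) = (2 * q) • {v} + ({v} + {v}) := by
  rw [mul_add, mul_one, add_smul, two_smul]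

theorem bxE (q v : ℕ) : EmpM ((2 * q) • {v}) (Bx q v) := by
  induction q with
  | zero =>
    have h0 : Bx 0 v = ∅ := by
      ext ⟨x, y⟩
      simp only [Bx, Set.mem_ofPred_eq, Set.mem_empty_iff_false, iff_false]
      push_cast
      omega
    rw [h0]
    refine ⟨ℚ, inferInstance, inferInstance, fun _ => 1, fun _ => 1, fun _ => one_ne_zero,
      fun _ => one_ne_zero, fun f hf _ => ?_⟩
    rw [← Finsupp.support_eq_empty, Finset.eq_empty_iff_forall_notMem]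
    intro m hm
    exact hf (mem_coe.2 hm)
  | succ q ih =>
    have hA : (0 : ℤ) ≤ (q : ℤ) * (v + 1) := by positivity
    rw [bx_succ, smul_split]
    refine cutE (bx_finite q v) ((up_finite hA v).union (dn_finite hA v)) ?_ ?_ 1 0 ?_ ih
      (cutE (up_finite hA v) (dn_finite hA v) (up_nonneg hA v) (dn_nonneg hA v) 1 1 ?_
        (upE _ v) (dnE _ v))
    · rintro ⟨x, y⟩ ⟨h1, h2, h3, h4⟩
      exact ⟨h1, h3⟩
    · rintro m (hm | hm)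
      · exact up_nonneg hA v m hm
      · exact dn_nonneg hA v m hm
    · rintro ⟨x, y⟩ ⟨h1, h2, h3, h4⟩ ⟨x', y'⟩ (⟨h5, h6, h7⟩ | ⟨h5, h6, h7⟩)
      · simp only at *; omega
      · simp only at *; omega
    · rintro ⟨x, y⟩ ⟨h1, h2, h3⟩ ⟨x', y'⟩ ⟨h5, h6, h7⟩
      simp only at *; omega

theorem surM_empty (S : Set (ℤ × ℤ)) : SurM 0 S := by
  refine ⟨∅, by simp, ?_, ?_⟩
  · rw [cond_condM, ms_toList]
    rfl
  · refine ⟨ℚ, inferInstance, inferInstance, fun _ => 1, fun _ => 1, fun _ => one_ne_zero,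
      fun _ => one_ne_zero, fun f hf _ => ?_⟩
    rw [← Finsupp.support_eq_empty, Finset.eq_empty_iff_forall_notMem]
    intro m hm
    have := hf (mem_coe.2 hm)
    simp at this

theorem bxS (q v : ℕ) : SurM ((2 * q) • {v}) (Bx q v) := by
  induction q with
  | zero =>
    rw [mul_zero, zero_smul]
    exact surM_empty _
  | succ q ih =>
    have hA : (0 : ℤ) ≤ (q : ℤ) * (v + 1) := by positivity
    rw [bx_succ, smul_split]
    refine cutS ?_ ?_ 1 0 ?_ ih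
      (cutS (up_nonneg hA v) (dn_nonneg hA v) 1 1 ?_ (upS _ v) (dnS _ v))
    · rintro ⟨x, y⟩ ⟨h1, h2, h3, h4⟩
      exact ⟨h1, h3⟩
    · rintro m (hm | hm)
      · exact up_nonneg hA v m hm
      · exact dn_nonneg hA v m hm
    · rintro ⟨x, y⟩ ⟨h1, h2, h3, h4⟩ ⟨x', y'⟩ (⟨h5, h6, h7⟩ | ⟨h5, h6, h7⟩)
      · simp only at *; omega
      · simp only at *; omega
    · rintro ⟨x, y⟩ ⟨h1, h2, h3⟩ ⟨x', y'⟩ ⟨h5, h6, h7⟩
      simp only at *; omega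

/-- the strip of height `v` of the triangle of side `L` -/
def St (L v : ℕ) : Set (ℤ × ℤ) := {m | 0 ≤ m.1 ∧ 0 ≤ m.2 ∧ m.2 < v ∧ m.1 + m.2 < L}

theorem st_finite (L v : ℕ) : (St L v).Finite := by
  apply finite_of_box L
  rintro ⟨x, y⟩ ⟨h1, h2, h3, h4⟩
  simp only at h1 h2 h3 h4 ⊢
  omega

theorem boxUp {q v : ℕ} : (∀ m ∈ Bx q v, 0 ≤ m.1 ∧ 0 ≤ m.2) ∧
    (∀ m ∈ Bx q v, ∀ m' ∈ Up ((q : ℤ) * (v + 1)) v,
      (1 : ℤ) * m.1 + 0 * m.2 < 1 * m'.1 + 0 * m'.2) := by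
  constructor
  · rintro ⟨x, y⟩ ⟨h1, h2, h3, h4⟩
    exact ⟨h1, h3⟩
  · rintro ⟨x, y⟩ ⟨h1, h2, h3, h4⟩ ⟨x', y'⟩ ⟨h5, h6, h7⟩
    simp only at *; omega

theorem stE (L v : ℕ) : EmpM ((2 * (L / (v + 1)) + 1) • {v}) (St L v) := by
  obtain ⟨q, hq⟩ : ∃ q, q = L / (v + 1) := ⟨_, rfl⟩
  rw [← hq]
  have hA : (0 : ℤ) ≤ (q : ℤ) * (v + 1) := by positivity
  have h1 : (L : ℤ) ≤ (q : ℤ) * (v + 1) + v := by
    have h2 := Nat.lt_div_mul_add (a := L) (b := v + 1) (by omega)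
    rw [← hq] at h2
    have h3 : ((L : ℕ) : ℤ) < ((q * (v + 1) + (v + 1) : ℕ) : ℤ) := by exact_mod_cast h2
    push_cast at h3
    omega
  rw [add_smul, one_smul]
  refine (cutE (bx_finite q v) (up_finite hA v) boxUp.1 (up_nonneg hA v) 1 0 boxUp.2
    (bxE q v) (upE _ v)).mono_set ?_
  rintro ⟨x, y⟩ ⟨a1, a2, a3, a4⟩
  simp only at a1 a2 a3 a4
  by_cases hx : x < (q : ℤ) * (v + 1)
  · left
    exact ⟨a1, hx, a2, a3⟩
  · right
    exact ⟨by simp only; omega, a2, by simp only; omega⟩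

theorem stS {L v : ℕ} (hv : v ≤ L) : SurM ((2 * ((L - v) / (v + 1)) + 1) • {v}) (St L v) := by
  obtain ⟨q, hq⟩ : ∃ q, q = (L - v) / (v + 1) := ⟨_, rfl⟩
  rw [← hq]
  have hA : (0 : ℤ) ≤ (q : ℤ) * (v + 1) := by positivity
  have h1 : (q : ℤ) * (v + 1) + v ≤ L := by
    have h2 := Nat.div_mul_le_self (L - v) (v + 1)
    rw [← hq] at h2
    have h3 : ((q * (v + 1) : ℕ) : ℤ) ≤ ((L - v : ℕ) : ℤ) := by exact_mod_cast h2
    push_cast [Nat.cast_sub hv] at h3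
    omega
  rw [add_smul, one_smul]
  refine SurM.mono_set (cutS boxUp.1 (up_nonneg hA v) 1 0 boxUp.2
    (bxS q v) (upS _ v)) ?_
  rintro ⟨x, y⟩ (⟨a1, a2, a3, a4⟩ | ⟨a1, a2, a3⟩)
  · simp only at a1 a2 a3 a4
    exact ⟨a1, a3, a4, by simp only; omega⟩
  · simp only at a1 a2 a3
    exact ⟨by simp only; omega, a2, by simp only; omega, by simp only; omega⟩

theorem TZ_split {d v : ℕ} (_hv : v ≤ d) : TZ d = St (d + 1) v ∪ {m | 0 ≤ m.1 ∧ (v : ℤ) ≤ m.2 ∧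
    m.1 + m.2 ≤ d} := by
  ext ⟨x, y⟩
  simp only [TZ, St, Set.mem_union, Set.mem_ofPred_eq]
  push_cast
  omega

theorem stepE {X : Multiset ℕ} {d v : ℕ} (hv : v ≤ d) (h : EmpM X (TZ (d - v))) :
    EmpM (X + (2 * ((d + 1) / (v + 1)) + 1) • {v}) (TZ d) := by
  have hup : EmpM X {m : ℤ × ℤ | 0 ≤ m.1 ∧ (v : ℤ) ≤ m.2 ∧ m.1 + m.2 ≤ d} := by
    refine EmpM.comap' h 1 0 0 1 0 (-v) (by norm_num) ?_
    rintro ⟨x, y⟩ ⟨h1, h2, h3⟩
    simp only at h1 h2 h3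
    refine ⟨by simp only; omega, by simp only; omega, ?_⟩
    simp only
    push_cast [Nat.cast_sub hv]
    omega
  rw [TZ_split hv, add_comm]
  refine cutE (st_finite _ _) ?_ ?_ ?_ 0 1 ?_ (stE (d + 1) v) hup
  · apply finite_of_box d
    rintro ⟨x, y⟩ ⟨h1, h2, h3⟩
    simp only at h1 h2 h3 ⊢
    omega
  · rintro ⟨x, y⟩ ⟨h1, h2, h3, h4⟩
    exact ⟨h1, h2⟩
  · rintro ⟨x, y⟩ ⟨h1, h2, h3⟩
    simp only at h1 h2 h3 ⊢
    omega
  · rintro ⟨x, y⟩ ⟨h1, h2, h3, h4⟩ ⟨x', y'⟩ ⟨h5, h6, h7⟩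
    simp only at *
    omega

theorem stepS' {X Y : Multiset ℕ} {d v : ℕ} (hv : v ≤ d) (h : SurM X (TZ (d - v)))
    (hY : SurM Y (St (d + 1) v)) : SurM (X + Y) (TZ d) := by
  have hup : SurM X {m : ℤ × ℤ | 0 ≤ m.1 ∧ (v : ℤ) ≤ m.2 ∧ m.1 + m.2 ≤ d} := by
    refine SurM.comap' h 1 0 0 1 0 (-v) (by norm_num) ?_
    rintro ⟨x, y⟩ ⟨h1, h2, h3⟩
    simp only at h1 h2 h3
    push_cast [Nat.cast_sub hv] at h3
    refine ⟨(x, y + v), ⟨by simp only; omega, by simp only; omega, by simp only; omega⟩, ?_⟩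
    ext
    · simp only; ring
    · simp only; ring
  rw [TZ_split hv, add_comm]
  refine cutS ?_ ?_ 0 1 ?_ hY hup
  · rintro ⟨x, y⟩ ⟨h1, h2, h3, h4⟩
    exact ⟨h1, h2⟩
  · rintro ⟨x, y⟩ ⟨h1, h2, h3⟩
    simp only at h1 h2 h3 ⊢
    omega
  · rintro ⟨x, y⟩ ⟨h1, h2, h3, h4⟩ ⟨x', y'⟩ ⟨h5, h6, h7⟩
    simp only at *
    omega

theorem LM_zero {K : Type*} [Field K] (f : (ℤ × ℤ) →₀ K) (x y : K) : LM f x y 0 := by
  intro P hP
  have : P = 0 := by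
    simpa [PF] using hP
  rw [this]
  unfold pr Finsupp.sum
  simp

/-- points of multiplicity zero can be dropped -/
theorem surM_drop {M : Multiset ℕ} {j : ℕ} {S : Set (ℤ × ℤ)} (h : SurM (j • {0} + M) S) :
    SurM M S := by
  have h1 := (SurM_iff (w := Sum.elim (fun _ : Fin j => 0) fun i : Fin M.toList.length => M.toList.get i)
    (by rw [ms_sum, ms_fin, ms_toList]) _).1 h
  obtain ⟨T, hT, hTc, K, _, _, x, y, hx, hy, hf⟩ := h1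
  refine ⟨T, hT, ?_, K, inferInstance, inferInstance, fun i => x (Sum.inr i), fun i => y (Sum.inr i),
    fun i => hx _, fun i => hy _, fun f hf1 hf2 => hf f hf1 ?_⟩
  · rw [hTc, cond_condM, cond_condM, ms_sum, ms_fin, ms_toList, condM_add, condM_smul, condM_single]
    simp
  · rintro (i | i)
    · exact LM_zero f _ _
    · exact hf2 i

theorem stS_le {L v p : ℕ} (hv : v ≤ L) (hp : p ≤ 2 * ((L - v) / (v + 1)) + 1) :
    SurM (p • {v}) (St L v) := by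
  have h := stS hv
  obtain ⟨j, hj⟩ := Nat.exists_eq_add_of_le hp
  rw [hj, add_comm p j, add_smul] at h
  exact surM_drop (SurM.lower (Nat.zero_le v) h)

end Pool.Agent.K7.H57.SP
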